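import Mathlib

set_option autoImplicit false
set_option linter.unusedSimpArgs false
set_option linter.unusedVariables false
set_option linter.unreachableTactic false
set_option linter.unusedTactic false

namespace Pool.Agent.Results.MP_633541_co.Full

open SimpleGraph

/-- The disjoint union of a triangle and two cycles of length `s`. -/
def Model (s : ℕ) : SimpleGraph (Fin 3 ⊕ Fin s ⊕ Fin s) :=
  cycleGraph 3 ⊕g (cycleGraph s ⊕g cycleGraph s)

def len (s j : ℕ) : ℕ := if j = 0 then 3 else s

def Ed (L k k' : ℕ) : Prop := k < L ∧ ((k' = k + 1 ∧ k' < L) ∨ (k + 1 = L ∧ k' = 0))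

def HasE (s : ℕ) (g : ℕ → ℕ → ℕ) (P : ℕ → ℕ → Prop) : Prop :=
  ∃ j k k', j < 3 ∧ Ed (len s j) k k' ∧ (P (g j k) (g j k') ∨ P (g j k') (g j k))

def HasV (s : ℕ) (g : ℕ → ℕ → ℕ) (v : ℕ) : Prop :=
  ∃ j k, j < 3 ∧ k < len s j ∧ g j k = v

def comp {s : ℕ} : Fin 3 ⊕ Fin s ⊕ Fin s → ℕ
  | Sum.inl _ => 0
  | Sum.inr (Sum.inl _) => 1
  | Sum.inr (Sum.inr _) => 2

def pos {s : ℕ} : Fin 3 ⊕ Fin s ⊕ Fin s → ℕ
  | Sum.inl a => a.val
  | Sum.inr (Sum.inl a) => a.val
  | Sum.inr (Sum.inr a) => a.val

def nb {t : ℕ} (b : Bool) : Fin 3 ⊕ Fin (t + 3) ⊕ Fin (t + 3) → Fin 3 ⊕ Fin (t + 3) ⊕ Fin (t + 3)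
  | Sum.inl a => Sum.inl (if b then a + 1 else a - 1)
  | Sum.inr (Sum.inl a) => Sum.inr (Sum.inl (if b then a + 1 else a - 1))
  | Sum.inr (Sum.inr a) => Sum.inr (Sum.inr (if b then a + 1 else a - 1))

lemma cyc_nb {t : ℕ} {a c : Fin (t + 3)} (h : (cycleGraph (t + 3)).Adj a c) :
    ∃ b : Bool, c = (if b then a + 1 else a - 1) := by
  have h' := (cycleGraph_adj (n := t + 1)).1 h
  rcases h' with h' | h'
  · exact ⟨false, by simp only [Bool.false_eq_true, if_false]; rw [← h']; abel⟩
  · exact ⟨true, by simp only [if_true]; rw [← h']; abel⟩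

lemma adj_nb {t : ℕ} {u v : Fin 3 ⊕ Fin (t + 3) ⊕ Fin (t + 3)} (h : (Model (t + 3)).Adj u v) :
    ∃ b : Bool, v = nb b u := by
  rcases u with u | u | u <;> rcases v with v | v | v <;>
    simp only [Model, sum_adj] at h
  · obtain ⟨b, hb⟩ := cyc_nb (t := 0) h; exact ⟨b, by rw [hb]; rfl⟩
  · obtain ⟨b, hb⟩ := cyc_nb h; exact ⟨b, by rw [hb]; rfl⟩
  · obtain ⟨b, hb⟩ := cyc_nb h; exact ⟨b, by rw [hb]; rfl⟩

lemma cyc_ed {t k k' : ℕ} (h : Ed (t + 3) k k') :
    ∃ a c : Fin (t + 3), a.val = k ∧ c.val = k' ∧ (cycleGraph (t + 3)).Adj a c := by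
  obtain ⟨h1, h2⟩ := h
  have hk' : k' < t + 3 := by omega
  refine ⟨⟨k, h1⟩, ⟨k', hk'⟩, rfl, rfl, ?_⟩
  refine (cycleGraph_adj (n := t + 1)).2 (Or.inr ?_)
  rw [sub_eq_iff_eq_add']
  apply Fin.ext
  rw [Fin.val_add]
  show k' = (k + 1) % (t + 3)
  rcases h2 with ⟨h2, h3⟩ | ⟨h2, h3⟩
  · rw [Nat.mod_eq_of_lt (by omega)]; exact h2
  · rw [h2, Nat.mod_self]; exact h3

lemma ed_adj {t j k k' : ℕ} (hj : j < 3) (h : Ed (len (t + 3) j) k k') :
    ∃ u v : Fin 3 ⊕ Fin (t + 3) ⊕ Fin (t + 3), comp u = j ∧ comp v = j ∧ pos u = k ∧ pos v = k' ∧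
      (Model (t + 3)).Adj u v := by
  obtain rfl | rfl | rfl : j = 0 ∨ j = 1 ∨ j = 2 := by omega
  · obtain ⟨a, c, ha, hc, hac⟩ := cyc_ed (t := 0) h
    exact ⟨Sum.inl a, Sum.inl c, rfl, rfl, ha, hc, by simpa [Model] using hac⟩
  · obtain ⟨a, c, ha, hc, hac⟩ := cyc_ed (t := t) h
    exact ⟨Sum.inr (Sum.inl a), Sum.inr (Sum.inl c), rfl, rfl, ha, hc, by simpa [Model] using hac⟩
  · obtain ⟨a, c, ha, hc, hac⟩ := cyc_ed (t := t) h
    exact ⟨Sum.inr (Sum.inr a), Sum.inr (Sum.inr c), rfl, rfl, ha, hc, by simpa [Model] using hac⟩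

lemma vert {s j k : ℕ} (hj : j < 3) (h : k < len s j) :
    ∃ u : Fin 3 ⊕ Fin s ⊕ Fin s, comp u = j ∧ pos u = k := by
  obtain rfl | rfl | rfl : j = 0 ∨ j = 1 ∨ j = 2 := by omega
  · exact ⟨Sum.inl ⟨k, h⟩, rfl, rfl⟩
  · exact ⟨Sum.inr (Sum.inl ⟨k, h⟩), rfl, rfl⟩
  · exact ⟨Sum.inr (Sum.inr ⟨k, h⟩), rfl, rfl⟩

lemma valid {s : ℕ} (u : Fin 3 ⊕ Fin s ⊕ Fin s) : comp u < 3 ∧ pos u < len s (comp u) := by
  rcases u with u | u | u
  · exact ⟨by simp [comp], u.isLt⟩
  · exact ⟨by simp [comp], u.isLt⟩
  · exact ⟨by simp [comp], u.isLt⟩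

def Sol (s : ℕ) : Prop :=
  ∃ F : Fin (s + 1) → SimpleGraph (Fin (2 * s + 3)),
    (∀ i, Nonempty (F i ≃g Model s)) ∧ ∀ x y, x ≠ y → ∃! i, (F i).Adj x y

lemma op_of (s : ℕ) (hs : 3 ≤ s) (f : ℕ → ℕ → ℕ → ℕ)
    (hb : ∀ i j k, i < s + 1 → j < 3 → k < len s j → f i j k < 2 * s + 3)
    (hv : ∀ i v, i < s + 1 → v < 2 * s + 3 → HasV s (f i) v)
    (he : ∀ x y, x < y → y < 2 * s + 3 → ∃ i, i < s + 1 ∧ HasE s (f i) (fun u v => u = x ∧ v = y)) :
    Sol s := by
  obtain ⟨t, rfl⟩ : ∃ t, s = t + 3 := ⟨s - 3, by omega⟩
  let φ : Fin (t + 3 + 1) → (Fin 3 ⊕ Fin (t + 3) ⊕ Fin (t + 3)) → Fin (2 * (t + 3) + 3) :=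
    fun i u => ⟨f i.val (comp u) (pos u), hb _ _ _ i.isLt (valid u).1 (valid u).2⟩
  have hφ : ∀ i, Function.Bijective (φ i) := by
    intro i
    rw [Fintype.bijective_iff_surjective_and_card]
    refine ⟨fun v => ?_, by simp; omega⟩
    obtain ⟨j, k, hj, hk, hjk⟩ := hv i.val v.val i.isLt v.isLt
    obtain ⟨u, hu1, hu2⟩ := vert hj hk
    exact ⟨u, Fin.ext (by simp only [φ, hu1, hu2, hjk])⟩
  let e : Fin (t + 3 + 1) → ((Fin 3 ⊕ Fin (t + 3) ⊕ Fin (t + 3)) ≃ Fin (2 * (t + 3) + 3)) :=
    fun i => Equiv.ofBijective (φ i) (hφ i)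
  have hex : ∀ x y : Fin (2 * (t + 3) + 3), x ≠ y →
      ∃ i, (Model (t + 3)).Adj ((e i).symm x) ((e i).symm y) := by
    have key : ∀ x y : Fin (2 * (t + 3) + 3), x.val < y.val →
        ∃ i, (Model (t + 3)).Adj ((e i).symm x) ((e i).symm y) := by
      intro x y hxy
      obtain ⟨i, hi, j, k, k', hj, hed, hP⟩ := he x.val y.val hxy y.isLt
      obtain ⟨u, v, hu, hv', hpu, hpv, hadj⟩ := ed_adj hj hed
      refine ⟨⟨i, hi⟩, ?_⟩
      rcases hP with ⟨h1, h2⟩ | ⟨h1, h2⟩
      · have e1 : (e ⟨i, hi⟩).symm x = u := by
          rw [Equiv.symm_apply_eq]; exact Fin.ext (by simp only [e, φ, Equiv.ofBijective_apply, hu, hpu, h1])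
        have e2 : (e ⟨i, hi⟩).symm y = v := by
          rw [Equiv.symm_apply_eq]; exact Fin.ext (by simp only [e, φ, Equiv.ofBijective_apply, hv', hpv, h2])
        rw [e1, e2]; exact hadj
      · have e1 : (e ⟨i, hi⟩).symm x = v := by
          rw [Equiv.symm_apply_eq]; exact Fin.ext (by simp only [e, φ, Equiv.ofBijective_apply, hv', hpv, h1])
        have e2 : (e ⟨i, hi⟩).symm y = u := by
          rw [Equiv.symm_apply_eq]; exact Fin.ext (by simp only [e, φ, Equiv.ofBijective_apply, hu, hpu, h2])
        rw [e1, e2]; exact hadj.symm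
    intro x y hxy
    rcases lt_or_gt_of_ne (Fin.val_ne_of_ne hxy) with h | h
    · exact key x y h
    · obtain ⟨i, hi⟩ := key y x h; exact ⟨i, hi.symm⟩
  refine ⟨fun i => (Model (t + 3)).comap (e i).symm, fun i => ⟨⟨(e i).symm, Iff.rfl⟩⟩, ?_⟩
  intro x y hxy
  let g : Fin (t + 3 + 1) × Bool → Fin (2 * (t + 3) + 3) :=
    fun p => e p.1 (nb p.2 ((e p.1).symm x))
  have hg : ∀ i z, (Model (t + 3)).Adj ((e i).symm x) ((e i).symm z) → ∃ b, g (i, b) = z := by
    intro i z h
    obtain ⟨b, hb'⟩ := adj_nb h
    exact ⟨b, by simp only [g]; rw [← hb']; simp⟩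
  have hinj : Set.InjOn g (Finset.univ : Finset (Fin (t + 3 + 1) × Bool)) := by
    apply Finset.injOn_of_card_image_eq
    apply le_antisymm Finset.card_image_le
    have hsub : Finset.univ.erase x ⊆ Finset.univ.image g := by
      intro z hz
      obtain ⟨i, hi⟩ := hex x z (Finset.ne_of_mem_erase hz).symm
      obtain ⟨b, hb'⟩ := hg i z hi
      exact Finset.mem_image.2 ⟨(i, b), Finset.mem_univ _, hb'⟩
    have := Finset.card_le_card hsub
    rw [Finset.card_erase_of_mem (Finset.mem_univ _)] at this
    simp only [Finset.card_univ, Fintype.card_prod, Fintype.card_fin, Fintype.card_bool] at this ⊢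
    omega
  obtain ⟨i, hi⟩ := hex x y hxy
  refine ⟨i, hi, fun j hj => ?_⟩
  obtain ⟨b, hb1⟩ := hg i y hi
  obtain ⟨c, hc1⟩ := hg j y hj
  have := hinj (by simp) (by simp) (hc1.trans hb1.symm)
  exact (Prod.ext_iff.1 this).1

def rot (n i u : ℕ) : ℕ :=
  if 2 * n ≤ u then u else if u + 2 * i < 2 * n then u + 2 * i else u + 2 * i - 2 * n

def Ty (n d p u v : ℕ) : Prop := u < 2 * n ∧ v < 2 * n ∧ u % 2 = p ∧ (v = u + d ∨ v + 2 * n = u + d)

lemma hasE_mono {s : ℕ} {g : ℕ → ℕ → ℕ} {P : ℕ → ℕ → Prop} (h : HasE s g P) :
    ∃ u v, P u v ∧ ∀ (r : ℕ → ℕ) (Q : ℕ → ℕ → Prop), (Q (r u) (r v) ∨ Q (r v) (r u)) →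
      HasE s (fun j k => r (g j k)) Q := by
  obtain ⟨j, k, k', hj, hed, hP | hP⟩ := h
  · exact ⟨_, _, hP, fun r Q hQ => ⟨j, k, k', hj, hed, hQ⟩⟩
  · exact ⟨_, _, hP, fun r Q hQ => ⟨j, k, k', hj, hed, hQ.symm⟩⟩

lemma rot_of (s n : ℕ) (hs : 3 ≤ s) (hn : n = s ∨ n = s + 1) (g h : ℕ → ℕ → ℕ)
    (hb : ∀ j k, j < 3 → k < len s j → g j k < 2 * s + 3)
    (hv : ∀ v, v < 2 * s + 3 → HasV s g v)
    (hb' : ∀ j k, j < 3 → k < len s j → h j k < 2 * s + 3)
    (hv' : ∀ v, v < 2 * s + 3 → HasV s h v)
    (ht : ∀ d p, 1 ≤ d → d ≤ n → p < 2 → (n = s → d ≠ 2) → HasE s g (Ty n d p))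
    (hi : ∀ w p, 2 * n ≤ w → w < 2 * s + 3 → p < 2 →
      HasE s g (fun u v => u < 2 * n ∧ u % 2 = p ∧ v = w))
    (hh : n = s → ∀ x y, x < y → y < 2 * s + 3 →
      (2 * n ≤ x ∨ (y < 2 * n ∧ (y = x + 2 ∨ y + 2 = x + 2 * n))) →
      HasE s h (fun u v => u = x ∧ v = y)) : Sol s := by
  refine op_of s hs (fun i => if i < n then (fun j k => rot n i (g j k)) else h) ?_ ?_ ?_
  · intro i j k _ hj hk
    by_cases c : i < n
    · simp only [if_pos c]
      have := hb j k hj hk
      unfold rot; split_ifs <;> omega
    · simp only [if_neg c]; exact hb' j k hj hk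
  · intro i v _ hv0
    by_cases c : i < n
    · simp only [if_pos c]
      obtain ⟨j, k, hj, hk, e⟩ := hv (if 2 * n ≤ v then v else if 2 * i ≤ v then v - 2 * i
        else v + 2 * n - 2 * i) (by split_ifs <;> omega)
      refine ⟨j, k, hj, hk, ?_⟩
      show rot n i (g j k) = v
      rw [e]; unfold rot; split_ifs <;> omega
    · simp only [if_neg c]; exact hv' v hv0
  · intro x y hxy hy
    by_cases c : n = s ∧ (2 * n ≤ x ∨ (y < 2 * n ∧ (y = x + 2 ∨ y + 2 = x + 2 * n)))
    · refine ⟨s, by omega, ?_⟩
      simp only [if_neg (show ¬ s < n by omega)]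
      exact hh c.1 x y hxy hy c.2
    · have fin : ∀ u v, (∀ (r : ℕ → ℕ) (Q : ℕ → ℕ → Prop), (Q (r u) (r v) ∨ Q (r v) (r u)) →
          HasE s (fun j k => r (g j k)) Q) → ∀ i, i < n →
          ((rot n i u = x ∧ rot n i v = y) ∨ (rot n i v = x ∧ rot n i u = y)) →
          ∃ i, i < s + 1 ∧ HasE s (if i < n then (fun j k => rot n i (g j k)) else h)
            (fun u v => u = x ∧ v = y) := by
        intro u v H i hi0 hr
        refine ⟨i, by omega, ?_⟩
        simp only [if_pos hi0]
        exact H (rot n i) _ hr
      by_cases c1 : 2 * n ≤ y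
      · obtain ⟨u, v, ⟨h1, h2, h3⟩, H⟩ := hasE_mono (hi y (x % 2) c1 hy (by omega))
        refine fin u v H (if u ≤ x then (x - u) / 2 else (x + 2 * n - u) / 2)
          (by split_ifs <;> omega) (Or.inl ?_)
        unfold rot; split_ifs <;> omega
      · by_cases c2 : y - x ≤ n
        · obtain ⟨u, v, ⟨h1, h2, h3, h4⟩, H⟩ :=
            hasE_mono (ht (y - x) (x % 2) (by omega) c2 (by omega) (by omega))
          refine fin u v H (if u ≤ x then (x - u) / 2 else (x + 2 * n - u) / 2)
            (by split_ifs <;> omega) (Or.inl ?_)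
          unfold rot; split_ifs <;> omega
        · obtain ⟨u, v, ⟨h1, h2, h3, h4⟩, H⟩ :=
            hasE_mono (ht (2 * n - (y - x)) (y % 2) (by omega) (by omega) (by omega) (by omega))
          refine fin u v H (if u ≤ y then (y - u) / 2 else (y + 2 * n - u) / 2)
            (by split_ifs <;> omega) (Or.inr ?_)
          unfold rot; split_ifs <;> omega

def mk (t c d : ℕ → ℕ) (j k : ℕ) : ℕ := if j = 0 then t k else if j = 1 then c k else d k

lemma e0 {s : ℕ} {t c d : ℕ → ℕ} {P : ℕ → ℕ → Prop} (k k' : ℕ)
    (h : Ed 3 k k' ∧ (P (t k) (t k') ∨ P (t k') (t k))) : HasE s (mk t c d) P :=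
  ⟨0, k, k', by omega, h.1, h.2⟩
lemma e1 {s : ℕ} {t c d : ℕ → ℕ} {P : ℕ → ℕ → Prop} (k k' : ℕ)
    (h : Ed s k k' ∧ (P (c k) (c k') ∨ P (c k') (c k))) : HasE s (mk t c d) P :=
  ⟨1, k, k', by omega, h.1, h.2⟩
lemma e2 {s : ℕ} {t c d : ℕ → ℕ} {P : ℕ → ℕ → Prop} (k k' : ℕ)
    (h : Ed s k k' ∧ (P (d k) (d k') ∨ P (d k') (d k))) : HasE s (mk t c d) P :=
  ⟨2, k, k', by omega, h.1, h.2⟩
lemma v0 {s : ℕ} {t c d : ℕ → ℕ} {v : ℕ} (k : ℕ) (h : k < 3 ∧ t k = v) : HasV s (mk t c d) v :=
  ⟨0, k, by omega, h.1, h.2⟩
lemma v1 {s : ℕ} {t c d : ℕ → ℕ} {v : ℕ} (k : ℕ) (h : k < s ∧ c k = v) : HasV s (mk t c d) v :=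
  ⟨1, k, by omega, h.1, h.2⟩
lemma v2 {s : ℕ} {t c d : ℕ → ℕ} {v : ℕ} (k : ℕ) (h : k < s ∧ d k = v) : HasV s (mk t c d) v :=
  ⟨2, k, by omega, h.1, h.2⟩
lemma bd {s B : ℕ} {t c d : ℕ → ℕ} (h0 : ∀ k, k < 3 → t k < B) (h1 : ∀ k, k < s → c k < B)
    (h2 : ∀ k, k < s → d k < B) : ∀ j k, j < 3 → k < len s j → mk t c d j k < B := by
  intro j k hj hk
  obtain rfl | rfl | rfl : j = 0 ∨ j = 1 ∨ j = 2 := by omega
  · exact h0 k hk
  · exact h1 k hk
  · exact h2 k hk

def fx (s : ℕ) : ℕ → ℕ → ℕ := mk (fun k => 2 * s + k) (fun k => 2 * k) (fun k => 2 * k + 1)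

lemma fx_b (s : ℕ) : ∀ j k, j < 3 → k < len s j → fx s j k < 2 * s + 3 :=
  bd (fun k hk => by omega) (fun k hk => by omega) (fun k hk => by omega)

lemma fx_v (s : ℕ) : ∀ v, v < 2 * s + 3 → HasV s (fx s) v := by
  intro v hv
  by_cases c : 2 * s ≤ v
  · exact v0 (v - 2 * s) (by omega)
  · by_cases c1 : v % 2 = 0
    · exact v1 (v / 2) (by omega)
    · exact v2 (v / 2) (by omega)

lemma fx_e (s n : ℕ) (hs : 3 ≤ s) : n = s → ∀ x y, x < y → y < 2 * s + 3 →
      (2 * n ≤ x ∨ (y < 2 * n ∧ (y = x + 2 ∨ y + 2 = x + 2 * n))) →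
      HasE s (fx s) (fun u v => u = x ∧ v = y) := by
  rintro rfl x y hxy hy (h | ⟨h1, h | h⟩)
  · by_cases c : y = x + 1
    · exact e0 (x - 2 * n) (x - 2 * n + 1) (by unfold Ed; omega)
    · exact e0 2 0 (by unfold Ed; omega)
  · by_cases c1 : x % 2 = 0
    · exact e1 (x / 2) (x / 2 + 1) (by unfold Ed; omega)
    · exact e2 (x / 2) (x / 2 + 1) (by unfold Ed; omega)
  · by_cases c1 : x % 2 = 0
    · exact e1 (n - 1) 0 (by unfold Ed; omega)
    · exact e2 (n - 1) 0 (by unfold Ed; omega)


def fat (r k : ℕ) : ℕ := if k = 0 then 8 * r + 2 else if k = 1 then 3 * r else 7 * r + 1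
def fac (r k : ℕ) : ℕ := if k % 2 = 0 then k / 2 else if k < 2 * r then 4 * r - k / 2 else 4 * r - 1 - k / 2
def fad (r k : ℕ) : ℕ := (if k % 2 = 0 then k / 2 else if k < 2 * r then 4 * r - k / 2 else 4 * r - 1 - k / 2) + (4 * r + 1)
lemma fa_v (r : ℕ) (hr : 1 ≤ r) : ∀ v, v < 2 * (4 * r) + 3 → HasV (4 * r) (mk (fat r) (fac r) (fad r)) v := by
    intro v hv
    by_cases c0 : v = 8 * r + 2
    · exact v0 0 ⟨by omega, by simp only [fat, fac, fad] <;> first | omega | (split_ifs <;> first | omega | (simp only [true_and, and_true, true_or, or_true, false_and, and_false, false_or, or_false] at * <;> omega))⟩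
    by_cases c1 : v = 3 * r
    · exact v0 1 ⟨by omega, by simp only [fat, fac, fad] <;> first | omega | (split_ifs <;> first | omega | (simp only [true_and, and_true, true_or, or_true, false_and, and_false, false_or, or_false] at * <;> omega))⟩
    by_cases c2 : v = 7 * r + 1
    · exact v0 2 ⟨by omega, by simp only [fat, fac, fad] <;> first | omega | (split_ifs <;> first | omega | (simp only [true_and, and_true, true_or, or_true, false_and, and_false, false_or, or_false] at * <;> omega))⟩
    by_cases c3 : v < 2 * r
    · exact v1 (2 * v) ⟨by omega, by simp only [fat, fac, fad] <;> first | omega | (split_ifs <;> first | omega | (simp only [true_and, and_true, true_or, or_true, false_and, and_false, false_or, or_false] at * <;> omega))⟩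
    by_cases c4 : v < 3 * r
    · exact v1 (2 * (4 * r - 1 - v) + 1) ⟨by omega, by simp only [fat, fac, fad] <;> first | omega | (split_ifs <;> first | omega | (simp only [true_and, and_true, true_or, or_true, false_and, and_false, false_or, or_false] at * <;> omega))⟩
    by_cases c5 : v ≤ 4 * r
    · exact v1 (2 * (4 * r - v) + 1) ⟨by omega, by simp only [fat, fac, fad] <;> first | omega | (split_ifs <;> first | omega | (simp only [true_and, and_true, true_or, or_true, false_and, and_false, false_or, or_false] at * <;> omega))⟩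
    by_cases c6 : v < 6 * r + 1
    · exact v2 (2 * (v - (4 * r + 1))) ⟨by omega, by simp only [fat, fac, fad] <;> first | omega | (split_ifs <;> first | omega | (simp only [true_and, and_true, true_or, or_true, false_and, and_false, false_or, or_false] at * <;> omega))⟩
    by_cases c7 : v < 7 * r + 1
    · exact v2 (2 * (8 * r - v) + 1) ⟨by omega, by simp only [fat, fac, fad] <;> first | omega | (split_ifs <;> first | omega | (simp only [true_and, and_true, true_or, or_true, false_and, and_false, false_or, or_false] at * <;> omega))⟩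
    exact v2 (2 * (8 * r + 1 - v) + 1) ⟨by omega, by simp only [fat, fac, fad] <;> first | omega | (split_ifs <;> first | omega | (simp only [true_and, and_true, true_or, or_true, false_and, and_false, false_or, or_false] at * <;> omega))⟩

lemma fa_t (r : ℕ) (hr : 1 ≤ r) : ∀ d p, 1 ≤ d → d ≤ 4 * r + 1 → p < 2 → (4 * r + 1 = 4 * r → d ≠ 2) →
    HasE (4 * r) (mk (fat r) (fac r) (fad r)) (Ty (4 * r + 1) d p) := by
    intro d p h1 h2 h3 h4
    have H : (d = 4 * r + 1) ∨ (2 * r < d ∧ d ≤ 4 * r) ∨ (2 * r = d) ∨ (d < 2 * r) := by omega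
    rcases H with H | H | H | H
    · exact e0 1 2 ⟨by unfold Ed; omega, by simp only [fat, fac, fad]; first | (simp only [Ty]; omega) | omega | (split_ifs <;> first | (exfalso; omega) | (simp only [Ty]; omega) | omega | (simp only [true_and, and_true, true_or, or_true, false_and, and_false, false_or, or_false] at * <;> omega))⟩
    · by_cases c0 : (4 * r - d + 1) / 2 % 2 = p
      · exact e1 (4 * r - d) (4 * r - d + 1) ⟨by unfold Ed; omega, by simp only [fat, fac, fad]; first | (simp only [Ty]; omega) | omega | (split_ifs <;> first | (exfalso; omega) | (simp only [Ty]; omega) | omega | (simp only [true_and, and_true, true_or, or_true, false_and, and_false, false_or, or_false] at * <;> omega))⟩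
      exact e2 (4 * r - d) (4 * r - d + 1) ⟨by unfold Ed; omega, by simp only [fat, fac, fad]; first | (simp only [Ty]; omega) | omega | (split_ifs <;> first | (exfalso; omega) | (simp only [Ty]; omega) | omega | (simp only [true_and, and_true, true_or, or_true, false_and, and_false, false_or, or_false] at * <;> omega))⟩
    · by_cases c0 : p = 0
      · exact e1 (4 * r - 1) 0 ⟨by unfold Ed; omega, by simp only [fat, fac, fad]; first | (simp only [Ty]; omega) | omega | (split_ifs <;> first | (exfalso; omega) | (simp only [Ty]; omega) | omega | (simp only [true_and, and_true, true_or, or_true, false_and, and_false, false_or, or_false] at * <;> omega))⟩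
      exact e2 (4 * r - 1) 0 ⟨by unfold Ed; omega, by simp only [fat, fac, fad]; first | (simp only [Ty]; omega) | omega | (split_ifs <;> first | (exfalso; omega) | (simp only [Ty]; omega) | omega | (simp only [true_and, and_true, true_or, or_true, false_and, and_false, false_or, or_false] at * <;> omega))⟩
    · by_cases c0 : (4 * r - d) / 2 % 2 = p
      · exact e1 (4 * r - 1 - d) (4 * r - d) ⟨by unfold Ed; omega, by simp only [fat, fac, fad]; first | (simp only [Ty]; omega) | omega | (split_ifs <;> first | (exfalso; omega) | (simp only [Ty]; omega) | omega | (simp only [true_and, and_true, true_or, or_true, false_and, and_false, false_or, or_false] at * <;> omega))⟩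
      exact e2 (4 * r - 1 - d) (4 * r - d) ⟨by unfold Ed; omega, by simp only [fat, fac, fad]; first | (simp only [Ty]; omega) | omega | (split_ifs <;> first | (exfalso; omega) | (simp only [Ty]; omega) | omega | (simp only [true_and, and_true, true_or, or_true, false_and, and_false, false_or, or_false] at * <;> omega))⟩

lemma fa_i (r : ℕ) (hr : 1 ≤ r) : ∀ w p, 2 * (4 * r + 1) ≤ w → w < 2 * (4 * r) + 3 → p < 2 →
    HasE (4 * r) (mk (fat r) (fac r) (fad r)) (fun u v => u < 2 * (4 * r + 1) ∧ u % 2 = p ∧ v = w) := by
    intro w p h1 h2 h3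
    by_cases c0 : 3 * r % 2 = p
    · exact e0 0 1 ⟨by unfold Ed; omega, by simp only [fat, fac, fad]; first | (simp only [Ty]; omega) | omega | (split_ifs <;> first | (exfalso; omega) | (simp only [Ty]; omega) | omega | (simp only [true_and, and_true, true_or, or_true, false_and, and_false, false_or, or_false] at * <;> omega))⟩
    exact e0 2 0 ⟨by unfold Ed; omega, by simp only [fat, fac, fad]; first | (simp only [Ty]; omega) | omega | (split_ifs <;> first | (exfalso; omega) | (simp only [Ty]; omega) | omega | (simp only [true_and, and_true, true_or, or_true, false_and, and_false, false_or, or_false] at * <;> omega))⟩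

lemma fa_sol (r : ℕ) (hr : 1 ≤ r) : Sol (4 * r) :=
  rot_of (4 * r) (4 * r + 1) (by omega) (by omega) (mk (fat r) (fac r) (fad r)) (fx (4 * r))
    (bd (fun k hk => by simp only [fat, fac, fad]; first | omega | (split_ifs <;> first | omega | (simp only [true_and, and_true, true_or, or_true, false_and, and_false, false_or, or_false] at * <;> omega)))
      (fun k hk => by simp only [fat, fac, fad]; first | omega | (split_ifs <;> first | omega | (simp only [true_and, and_true, true_or, or_true, false_and, and_false, false_or, or_false] at * <;> omega)))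
      (fun k hk => by simp only [fat, fac, fad]; first | omega | (split_ifs <;> first | omega | (simp only [true_and, and_true, true_or, or_true, false_and, and_false, false_or, or_false] at * <;> omega))))
    (fa_v r hr) (fx_b _) (fx_v _) (fa_t r hr) (fa_i r hr) (fx_e _ _ (by omega))

def fbt (r k : ℕ) : ℕ := if k = 0 then 8 * r + 6 else if k = 1 then 0 else 4 * r + 3
def fbc (r k : ℕ) : ℕ := if k < 2 * r then (if (k) % 2 = 0 then 4 * r + 2 - (k) / 2 else (k + 1) / 2) else if k = 2 * r then 3 * r + 2 else if k ≤ 4 * r then 4 * r + 3 + (if (4 * r - k) % 2 = 0 then 4 * r + 2 - (4 * r - k) / 2 else (4 * r - k + 1) / 2) else (if r % 2 = 0 then 2 * r + 1 else 6 * r + 4)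
def fbd (r k : ℕ) : ℕ := if k < 2 * r then (if (k) % 2 = 0 then 3 * r + 1 - (k) / 2 else r + (k + 1) / 2) else if k = 2 * r then (if r % 2 = 0 then 6 * r + 4 else 2 * r + 1) else if k ≤ 4 * r then 4 * r + 3 + (if (4 * r - k) % 2 = 0 then 3 * r + 1 - (4 * r - k) / 2 else r + (4 * r - k + 1) / 2) else 7 * r + 5
lemma fb_v (r : ℕ) (hr : 1 ≤ r) : ∀ v, v < 2 * (4 * r + 2) + 3 → HasV (4 * r + 2) (mk (fbt r) (fbc r) (fbd r)) v := by
    intro v hv
    by_cases c0 : v = 8 * r + 6
    · exact v0 0 ⟨by omega, by simp only [fbt, fbc, fbd] <;> first | omega | (split_ifs <;> first | omega | (simp only [true_and, and_true, true_or, or_true, false_and, and_false, false_or, or_false] at * <;> omega))⟩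
    by_cases c1 : v = 0
    · exact v0 1 ⟨by omega, by simp only [fbt, fbc, fbd] <;> first | omega | (split_ifs <;> first | omega | (simp only [true_and, and_true, true_or, or_true, false_and, and_false, false_or, or_false] at * <;> omega))⟩
    by_cases c2 : v = 4 * r + 3
    · exact v0 2 ⟨by omega, by simp only [fbt, fbc, fbd] <;> first | omega | (split_ifs <;> first | omega | (simp only [true_and, and_true, true_or, or_true, false_and, and_false, false_or, or_false] at * <;> omega))⟩
    by_cases c3 : v ≤ r
    · exact v1 (2 * v - 1) ⟨by omega, by simp only [fbt, fbc, fbd] <;> first | omega | (split_ifs <;> first | omega | (simp only [true_and, and_true, true_or, or_true, false_and, and_false, false_or, or_false] at * <;> omega))⟩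
    by_cases c4 : v ≤ 2 * r
    · exact v2 (2 * (v - r) - 1) ⟨by omega, by simp only [fbt, fbc, fbd] <;> first | omega | (split_ifs <;> first | omega | (simp only [true_and, and_true, true_or, or_true, false_and, and_false, false_or, or_false] at * <;> omega))⟩
    by_cases c5 : v = 2 * r + 1 ∧ r % 2 = 0
    · exact v1 (4 * r + 1) ⟨by omega, by simp only [fbt, fbc, fbd] <;> first | omega | (split_ifs <;> first | omega | (simp only [true_and, and_true, true_or, or_true, false_and, and_false, false_or, or_false] at * <;> omega))⟩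
    by_cases c6 : v = 2 * r + 1
    · exact v2 (2 * r) ⟨by omega, by simp only [fbt, fbc, fbd] <;> first | omega | (split_ifs <;> first | omega | (simp only [true_and, and_true, true_or, or_true, false_and, and_false, false_or, or_false] at * <;> omega))⟩
    by_cases c7 : v ≤ 3 * r + 1
    · exact v2 (2 * (3 * r + 1 - v)) ⟨by omega, by simp only [fbt, fbc, fbd] <;> first | omega | (split_ifs <;> first | omega | (simp only [true_and, and_true, true_or, or_true, false_and, and_false, false_or, or_false] at * <;> omega))⟩
    by_cases c8 : v = 3 * r + 2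
    · exact v1 (2 * r) ⟨by omega, by simp only [fbt, fbc, fbd] <;> first | omega | (split_ifs <;> first | omega | (simp only [true_and, and_true, true_or, or_true, false_and, and_false, false_or, or_false] at * <;> omega))⟩
    by_cases c9 : v ≤ 4 * r + 2
    · exact v1 (2 * (4 * r + 2 - v)) ⟨by omega, by simp only [fbt, fbc, fbd] <;> first | omega | (split_ifs <;> first | omega | (simp only [true_and, and_true, true_or, or_true, false_and, and_false, false_or, or_false] at * <;> omega))⟩
    by_cases c10 : v ≤ 5 * r + 3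
    · exact v1 (4 * r - (2 * (v - (4 * r + 3)) - 1)) ⟨by omega, by simp only [fbt, fbc, fbd] <;> first | omega | (split_ifs <;> first | omega | (simp only [true_and, and_true, true_or, or_true, false_and, and_false, false_or, or_false] at * <;> omega))⟩
    by_cases c11 : v ≤ 6 * r + 3
    · exact v2 (4 * r - (2 * (v - (5 * r + 3)) - 1)) ⟨by omega, by simp only [fbt, fbc, fbd] <;> first | omega | (split_ifs <;> first | omega | (simp only [true_and, and_true, true_or, or_true, false_and, and_false, false_or, or_false] at * <;> omega))⟩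
    by_cases c12 : v = 6 * r + 4 ∧ r % 2 = 0
    · exact v2 (2 * r) ⟨by omega, by simp only [fbt, fbc, fbd] <;> first | omega | (split_ifs <;> first | omega | (simp only [true_and, and_true, true_or, or_true, false_and, and_false, false_or, or_false] at * <;> omega))⟩
    by_cases c13 : v = 6 * r + 4
    · exact v1 (4 * r + 1) ⟨by omega, by simp only [fbt, fbc, fbd] <;> first | omega | (split_ifs <;> first | omega | (simp only [true_and, and_true, true_or, or_true, false_and, and_false, false_or, or_false] at * <;> omega))⟩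
    by_cases c14 : v ≤ 7 * r + 4
    · exact v2 (4 * r - 2 * (7 * r + 4 - v)) ⟨by omega, by simp only [fbt, fbc, fbd] <;> first | omega | (split_ifs <;> first | omega | (simp only [true_and, and_true, true_or, or_true, false_and, and_false, false_or, or_false] at * <;> omega))⟩
    by_cases c15 : v = 7 * r + 5
    · exact v2 (4 * r + 1) ⟨by omega, by simp only [fbt, fbc, fbd] <;> first | omega | (split_ifs <;> first | omega | (simp only [true_and, and_true, true_or, or_true, false_and, and_false, false_or, or_false] at * <;> omega))⟩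
    exact v1 (4 * r - 2 * (8 * r + 5 - v)) ⟨by omega, by simp only [fbt, fbc, fbd] <;> first | omega | (split_ifs <;> first | omega | (simp only [true_and, and_true, true_or, or_true, false_and, and_false, false_or, or_false] at * <;> omega))⟩

lemma fb_t (r : ℕ) (hr : 1 ≤ r) : ∀ d p, 1 ≤ d → d ≤ 4 * r + 3 → p < 2 → (4 * r + 3 = 4 * r + 2 → d ≠ 2) →
    HasE (4 * r + 2) (mk (fbt r) (fbc r) (fbd r)) (Ty (4 * r + 3) d p) := by
    intro d p h1 h2 h3 h4
    have H : (d = 4 * r + 3) ∨ (d = 4 * r + 2) ∨ (2 * r + 3 ≤ d ∧ d ≤ 4 * r + 1) ∨ (d = 2 * r + 2) ∨ (d = 2 * r + 1) ∨ (2 ≤ d ∧ d ≤ 2 * r) ∨ (d = 1) := by omega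
    rcases H with H | H | H | H | H | H | H
    · exact e0 1 2 ⟨by unfold Ed; omega, by simp only [fbt, fbc, fbd]; first | (simp only [Ty]; omega) | omega | (split_ifs <;> first | (exfalso; omega) | (simp only [Ty]; omega) | omega | (simp only [true_and, and_true, true_or, or_true, false_and, and_false, false_or, or_false] at * <;> omega))⟩
    · by_cases c0 : (r + 1) % 2 = p
      · exact e2 (4 * r + 1) 0 ⟨by unfold Ed; omega, by simp only [fbt, fbc, fbd]; first | (simp only [Ty]; omega) | omega | (split_ifs <;> first | (exfalso; omega) | (simp only [Ty]; omega) | omega | (simp only [true_and, and_true, true_or, or_true, false_and, and_false, false_or, or_false] at * <;> omega))⟩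
      by_cases c1 : p = 0
      · exact e2 (2 * r - 1) (2 * r) ⟨by unfold Ed; omega, by simp only [fbt, fbc, fbd]; first | (simp only [Ty]; omega) | omega | (split_ifs <;> first | (exfalso; omega) | (simp only [Ty]; omega) | omega | (simp only [true_and, and_true, true_or, or_true, false_and, and_false, false_or, or_false] at * <;> omega))⟩
      exact e2 (2 * r) (2 * r + 1) ⟨by unfold Ed; omega, by simp only [fbt, fbc, fbd]; first | (simp only [Ty]; omega) | omega | (split_ifs <;> first | (exfalso; omega) | (simp only [Ty]; omega) | omega | (simp only [true_and, and_true, true_or, or_true, false_and, and_false, false_or, or_false] at * <;> omega))⟩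
    · by_cases c0 : (4 * r + 3 - d) / 2 % 2 = p
      · exact e1 (4 * r + 1 - d) (4 * r + 2 - d) ⟨by unfold Ed; omega, by simp only [fbt, fbc, fbd]; first | (simp only [Ty]; omega) | omega | (split_ifs <;> first | (exfalso; omega) | (simp only [Ty]; omega) | omega | (simp only [true_and, and_true, true_or, or_true, false_and, and_false, false_or, or_false] at * <;> omega))⟩
      exact e1 (d - 2) (d - 1) ⟨by unfold Ed; omega, by simp only [fbt, fbc, fbd]; first | (simp only [Ty]; omega) | omega | (split_ifs <;> first | (exfalso; omega) | (simp only [Ty]; omega) | omega | (simp only [true_and, and_true, true_or, or_true, false_and, and_false, false_or, or_false] at * <;> omega))⟩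
    · by_cases c0 : r % 2 = p
      · exact e1 (2 * r - 1) (2 * r) ⟨by unfold Ed; omega, by simp only [fbt, fbc, fbd]; first | (simp only [Ty]; omega) | omega | (split_ifs <;> first | (exfalso; omega) | (simp only [Ty]; omega) | omega | (simp only [true_and, and_true, true_or, or_true, false_and, and_false, false_or, or_false] at * <;> omega))⟩
      by_cases c1 : p = 1
      · exact e1 (4 * r) (4 * r + 1) ⟨by unfold Ed; omega, by simp only [fbt, fbc, fbd]; first | (simp only [Ty]; omega) | omega | (split_ifs <;> first | (exfalso; omega) | (simp only [Ty]; omega) | omega | (simp only [true_and, and_true, true_or, or_true, false_and, and_false, false_or, or_false] at * <;> omega))⟩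
      exact e1 (4 * r + 1) 0 ⟨by unfold Ed; omega, by simp only [fbt, fbc, fbd]; first | (simp only [Ty]; omega) | omega | (split_ifs <;> first | (exfalso; omega) | (simp only [Ty]; omega) | omega | (simp only [true_and, and_true, true_or, or_true, false_and, and_false, false_or, or_false] at * <;> omega))⟩
    · by_cases c0 : r % 2 = p
      · exact e1 (2 * r) (2 * r + 1) ⟨by unfold Ed; omega, by simp only [fbt, fbc, fbd]; first | (simp only [Ty]; omega) | omega | (split_ifs <;> first | (exfalso; omega) | (simp only [Ty]; omega) | omega | (simp only [true_and, and_true, true_or, or_true, false_and, and_false, false_or, or_false] at * <;> omega))⟩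
      by_cases c1 : p = 1
      · exact e1 (4 * r + 1) 0 ⟨by unfold Ed; omega, by simp only [fbt, fbc, fbd]; first | (simp only [Ty]; omega) | omega | (split_ifs <;> first | (exfalso; omega) | (simp only [Ty]; omega) | omega | (simp only [true_and, and_true, true_or, or_true, false_and, and_false, false_or, or_false] at * <;> omega))⟩
      exact e1 (4 * r) (4 * r + 1) ⟨by unfold Ed; omega, by simp only [fbt, fbc, fbd]; first | (simp only [Ty]; omega) | omega | (split_ifs <;> first | (exfalso; omega) | (simp only [Ty]; omega) | omega | (simp only [true_and, and_true, true_or, or_true, false_and, and_false, false_or, or_false] at * <;> omega))⟩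
    · by_cases c0 : (r + (2 * r + 2 - d) / 2) % 2 = p
      · exact e2 (2 * r - d) (2 * r + 1 - d) ⟨by unfold Ed; omega, by simp only [fbt, fbc, fbd]; first | (simp only [Ty]; omega) | omega | (split_ifs <;> first | (exfalso; omega) | (simp only [Ty]; omega) | omega | (simp only [true_and, and_true, true_or, or_true, false_and, and_false, false_or, or_false] at * <;> omega))⟩
      exact e2 (2 * r + d - 1) (2 * r + d) ⟨by unfold Ed; omega, by simp only [fbt, fbc, fbd]; first | (simp only [Ty]; omega) | omega | (split_ifs <;> first | (exfalso; omega) | (simp only [Ty]; omega) | omega | (simp only [true_and, and_true, true_or, or_true, false_and, and_false, false_or, or_false] at * <;> omega))⟩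
    · by_cases c0 : r % 2 = p
      · exact e2 (4 * r) (4 * r + 1) ⟨by unfold Ed; omega, by simp only [fbt, fbc, fbd]; first | (simp only [Ty]; omega) | omega | (split_ifs <;> first | (exfalso; omega) | (simp only [Ty]; omega) | omega | (simp only [true_and, and_true, true_or, or_true, false_and, and_false, false_or, or_false] at * <;> omega))⟩
      by_cases c1 : p = 1
      · exact e2 (2 * r) (2 * r + 1) ⟨by unfold Ed; omega, by simp only [fbt, fbc, fbd]; first | (simp only [Ty]; omega) | omega | (split_ifs <;> first | (exfalso; omega) | (simp only [Ty]; omega) | omega | (simp only [true_and, and_true, true_or, or_true, false_and, and_false, false_or, or_false] at * <;> omega))⟩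
      exact e2 (2 * r - 1) (2 * r) ⟨by unfold Ed; omega, by simp only [fbt, fbc, fbd]; first | (simp only [Ty]; omega) | omega | (split_ifs <;> first | (exfalso; omega) | (simp only [Ty]; omega) | omega | (simp only [true_and, and_true, true_or, or_true, false_and, and_false, false_or, or_false] at * <;> omega))⟩

lemma fb_i (r : ℕ) (hr : 1 ≤ r) : ∀ w p, 2 * (4 * r + 3) ≤ w → w < 2 * (4 * r + 2) + 3 → p < 2 →
    HasE (4 * r + 2) (mk (fbt r) (fbc r) (fbd r)) (fun u v => u < 2 * (4 * r + 3) ∧ u % 2 = p ∧ v = w) := by
    intro w p h1 h2 h3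
    by_cases c0 : p = 0
    · exact e0 0 1 ⟨by unfold Ed; omega, by simp only [fbt, fbc, fbd]; first | (simp only [Ty]; omega) | omega | (split_ifs <;> first | (exfalso; omega) | (simp only [Ty]; omega) | omega | (simp only [true_and, and_true, true_or, or_true, false_and, and_false, false_or, or_false] at * <;> omega))⟩
    exact e0 2 0 ⟨by unfold Ed; omega, by simp only [fbt, fbc, fbd]; first | (simp only [Ty]; omega) | omega | (split_ifs <;> first | (exfalso; omega) | (simp only [Ty]; omega) | omega | (simp only [true_and, and_true, true_or, or_true, false_and, and_false, false_or, or_false] at * <;> omega))⟩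

lemma fb_sol (r : ℕ) (hr : 1 ≤ r) : Sol (4 * r + 2) :=
  rot_of (4 * r + 2) (4 * r + 3) (by omega) (by omega) (mk (fbt r) (fbc r) (fbd r)) (fx (4 * r + 2))
    (bd (fun k hk => by simp only [fbt, fbc, fbd]; first | omega | (split_ifs <;> first | omega | (simp only [true_and, and_true, true_or, or_true, false_and, and_false, false_or, or_false] at * <;> omega)))
      (fun k hk => by simp only [fbt, fbc, fbd]; first | omega | (split_ifs <;> first | omega | (simp only [true_and, and_true, true_or, or_true, false_and, and_false, false_or, or_false] at * <;> omega)))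
      (fun k hk => by simp only [fbt, fbc, fbd]; first | omega | (split_ifs <;> first | omega | (simp only [true_and, and_true, true_or, or_true, false_and, and_false, false_or, or_false] at * <;> omega))))
    (fb_v r hr) (fx_b _) (fx_v _) (fb_t r hr) (fb_i r hr) (fx_e _ _ (by omega))

def fct (r k : ℕ) : ℕ := if k = 0 then 2 * r + 1 else if k = 1 then 2 * r else 8 * r + 4
def fcc (r k : ℕ) : ℕ := if k + 3 < 4 * r then (if k % 2 = 0 then 1 + k / 2 else 4 * r - 1 - k / 2) else if k + 3 = 4 * r then 6 * r + 2 else if k + 2 = 4 * r then 6 * r + 1 else if k + 1 = 4 * r then 8 * r + 2 else 4 * r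
def fcd (r k : ℕ) : ℕ := if k + 3 < 4 * r then 4 * r + 1 + (if k % 2 = 0 then 1 + k / 2 else 4 * r - 1 - k / 2) else if k + 3 = 4 * r then 8 * r + 3 else if k + 2 = 4 * r then 8 * r + 1 else if k + 1 = 4 * r then 4 * r + 1 else 0
lemma fc_v (r : ℕ) (hr : 1 ≤ r) : ∀ v, v < 2 * (4 * r + 1) + 3 → HasV (4 * r + 1) (mk (fct r) (fcc r) (fcd r)) v := by
    intro v hv
    by_cases c0 : v = 0
    · exact v2 (4 * r) ⟨by omega, by simp only [fct, fcc, fcd] <;> first | omega | (split_ifs <;> first | omega | (simp only [true_and, and_true, true_or, or_true, false_and, and_false, false_or, or_false] at * <;> omega))⟩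
    by_cases c1 : v < 2 * r
    · exact v1 (2 * (v - 1)) ⟨by omega, by simp only [fct, fcc, fcd] <;> first | omega | (split_ifs <;> first | omega | (simp only [true_and, and_true, true_or, or_true, false_and, and_false, false_or, or_false] at * <;> omega))⟩
    by_cases c2 : v = 2 * r
    · exact v0 1 ⟨by omega, by simp only [fct, fcc, fcd] <;> first | omega | (split_ifs <;> first | omega | (simp only [true_and, and_true, true_or, or_true, false_and, and_false, false_or, or_false] at * <;> omega))⟩
    by_cases c3 : v = 2 * r + 1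
    · exact v0 0 ⟨by omega, by simp only [fct, fcc, fcd] <;> first | omega | (split_ifs <;> first | omega | (simp only [true_and, and_true, true_or, or_true, false_and, and_false, false_or, or_false] at * <;> omega))⟩
    by_cases c4 : v < 4 * r
    · exact v1 (2 * (4 * r - 1 - v) + 1) ⟨by omega, by simp only [fct, fcc, fcd] <;> first | omega | (split_ifs <;> first | omega | (simp only [true_and, and_true, true_or, or_true, false_and, and_false, false_or, or_false] at * <;> omega))⟩
    by_cases c5 : v = 4 * r
    · exact v1 (4 * r) ⟨by omega, by simp only [fct, fcc, fcd] <;> first | omega | (split_ifs <;> first | omega | (simp only [true_and, and_true, true_or, or_true, false_and, and_false, false_or, or_false] at * <;> omega))⟩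
    by_cases c6 : v = 4 * r + 1
    · exact v2 (4 * r - 1) ⟨by omega, by simp only [fct, fcc, fcd] <;> first | omega | (split_ifs <;> first | omega | (simp only [true_and, and_true, true_or, or_true, false_and, and_false, false_or, or_false] at * <;> omega))⟩
    by_cases c7 : v ≤ 6 * r
    · exact v2 (2 * (v - (4 * r + 2))) ⟨by omega, by simp only [fct, fcc, fcd] <;> first | omega | (split_ifs <;> first | omega | (simp only [true_and, and_true, true_or, or_true, false_and, and_false, false_or, or_false] at * <;> omega))⟩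
    by_cases c8 : v = 6 * r + 1
    · exact v1 (4 * r - 2) ⟨by omega, by simp only [fct, fcc, fcd] <;> first | omega | (split_ifs <;> first | omega | (simp only [true_and, and_true, true_or, or_true, false_and, and_false, false_or, or_false] at * <;> omega))⟩
    by_cases c9 : v = 6 * r + 2
    · exact v1 (4 * r - 3) ⟨by omega, by simp only [fct, fcc, fcd] <;> first | omega | (split_ifs <;> first | omega | (simp only [true_and, and_true, true_or, or_true, false_and, and_false, false_or, or_false] at * <;> omega))⟩
    by_cases c10 : v ≤ 8 * r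
    · exact v2 (2 * (8 * r - v) + 1) ⟨by omega, by simp only [fct, fcc, fcd] <;> first | omega | (split_ifs <;> first | omega | (simp only [true_and, and_true, true_or, or_true, false_and, and_false, false_or, or_false] at * <;> omega))⟩
    by_cases c11 : v = 8 * r + 1
    · exact v2 (4 * r - 2) ⟨by omega, by simp only [fct, fcc, fcd] <;> first | omega | (split_ifs <;> first | omega | (simp only [true_and, and_true, true_or, or_true, false_and, and_false, false_or, or_false] at * <;> omega))⟩
    by_cases c12 : v = 8 * r + 2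
    · exact v1 (4 * r - 1) ⟨by omega, by simp only [fct, fcc, fcd] <;> first | omega | (split_ifs <;> first | omega | (simp only [true_and, and_true, true_or, or_true, false_and, and_false, false_or, or_false] at * <;> omega))⟩
    by_cases c13 : v = 8 * r + 3
    · exact v2 (4 * r - 3) ⟨by omega, by simp only [fct, fcc, fcd] <;> first | omega | (split_ifs <;> first | omega | (simp only [true_and, and_true, true_or, or_true, false_and, and_false, false_or, or_false] at * <;> omega))⟩
    exact v0 2 ⟨by omega, by simp only [fct, fcc, fcd] <;> first | omega | (split_ifs <;> first | omega | (simp only [true_and, and_true, true_or, or_true, false_and, and_false, false_or, or_false] at * <;> omega))⟩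

lemma fc_t (r : ℕ) (hr : 1 ≤ r) : ∀ d p, 1 ≤ d → d ≤ 4 * r + 1 → p < 2 → (4 * r + 1 = 4 * r + 1 → d ≠ 2) →
    HasE (4 * r + 1) (mk (fct r) (fcc r) (fcd r)) (Ty (4 * r + 1) d p) := by
    intro d p h1 h2 h3 h4
    have H : (d = 4 * r + 1) ∨ (d = 4 * r) ∨ (d = 4 * r - 1) ∨ (d = 1) ∨ (3 ≤ d ∧ d + 2 ≤ 4 * r) := by omega
    rcases H with H | H | H | H | H
    · exact e2 (4 * r - 1) (4 * r) ⟨by unfold Ed; omega, by simp only [fct, fcc, fcd]; first | (simp only [Ty]; omega) | omega | (split_ifs <;> first | (exfalso; omega) | (simp only [Ty]; omega) | omega | (simp only [true_and, and_true, true_or, or_true, false_and, and_false, false_or, or_false] at * <;> omega))⟩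
    · by_cases c0 : p = 0
      · exact e2 (4 * r) 0 ⟨by unfold Ed; omega, by simp only [fct, fcc, fcd]; first | (simp only [Ty]; omega) | omega | (split_ifs <;> first | (exfalso; omega) | (simp only [Ty]; omega) | omega | (simp only [true_and, and_true, true_or, or_true, false_and, and_false, false_or, or_false] at * <;> omega))⟩
      exact e2 (4 * r - 2) (4 * r - 1) ⟨by unfold Ed; omega, by simp only [fct, fcc, fcd]; first | (simp only [Ty]; omega) | omega | (split_ifs <;> first | (exfalso; omega) | (simp only [Ty]; omega) | omega | (simp only [true_and, and_true, true_or, or_true, false_and, and_false, false_or, or_false] at * <;> omega))⟩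
    · by_cases c0 : p = 0
      · exact e1 (4 * r - 4) (4 * r - 3) ⟨by unfold Ed; omega, by simp only [fct, fcc, fcd]; first | (simp only [Ty]; omega) | omega | (split_ifs <;> first | (exfalso; omega) | (simp only [Ty]; omega) | omega | (simp only [true_and, and_true, true_or, or_true, false_and, and_false, false_or, or_false] at * <;> omega))⟩
      exact e1 (4 * r) 0 ⟨by unfold Ed; omega, by simp only [fct, fcc, fcd]; first | (simp only [Ty]; omega) | omega | (split_ifs <;> first | (exfalso; omega) | (simp only [Ty]; omega) | omega | (simp only [true_and, and_true, true_or, or_true, false_and, and_false, false_or, or_false] at * <;> omega))⟩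
    · by_cases c0 : p = 0
      · exact e0 0 1 ⟨by unfold Ed; omega, by simp only [fct, fcc, fcd]; first | (simp only [Ty]; omega) | omega | (split_ifs <;> first | (exfalso; omega) | (simp only [Ty]; omega) | omega | (simp only [true_and, and_true, true_or, or_true, false_and, and_false, false_or, or_false] at * <;> omega))⟩
      exact e1 (4 * r - 3) (4 * r - 2) ⟨by unfold Ed; omega, by simp only [fct, fcc, fcd]; first | (simp only [Ty]; omega) | omega | (split_ifs <;> first | (exfalso; omega) | (simp only [Ty]; omega) | omega | (simp only [true_and, and_true, true_or, or_true, false_and, and_false, false_or, or_false] at * <;> omega))⟩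
    · by_cases c0 : (1 + (4 * r - 1 - d) / 2) % 2 = p
      · exact e1 (4 * r - 2 - d) (4 * r - 1 - d) ⟨by unfold Ed; omega, by simp only [fct, fcc, fcd]; first | (simp only [Ty]; omega) | omega | (split_ifs <;> first | (exfalso; omega) | (simp only [Ty]; omega) | omega | (simp only [true_and, and_true, true_or, or_true, false_and, and_false, false_or, or_false] at * <;> omega))⟩
      exact e2 (4 * r - 2 - d) (4 * r - 1 - d) ⟨by unfold Ed; omega, by simp only [fct, fcc, fcd]; first | (simp only [Ty]; omega) | omega | (split_ifs <;> first | (exfalso; omega) | (simp only [Ty]; omega) | omega | (simp only [true_and, and_true, true_or, or_true, false_and, and_false, false_or, or_false] at * <;> omega))⟩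

lemma fc_i (r : ℕ) (hr : 1 ≤ r) : ∀ w p, 2 * (4 * r + 1) ≤ w → w < 2 * (4 * r + 1) + 3 → p < 2 →
    HasE (4 * r + 1) (mk (fct r) (fcc r) (fcd r)) (fun u v => u < 2 * (4 * r + 1) ∧ u % 2 = p ∧ v = w) := by
    intro w p h1 h2 h3
    by_cases c0 : w = 8 * r + 2 ∧ p = 0
    · exact e1 (4 * r - 1) (4 * r) ⟨by unfold Ed; omega, by simp only [fct, fcc, fcd]; first | (simp only [Ty]; omega) | omega | (split_ifs <;> first | (exfalso; omega) | (simp only [Ty]; omega) | omega | (simp only [true_and, and_true, true_or, or_true, false_and, and_false, false_or, or_false] at * <;> omega))⟩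
    by_cases c1 : w = 8 * r + 2
    · exact e1 (4 * r - 2) (4 * r - 1) ⟨by unfold Ed; omega, by simp only [fct, fcc, fcd]; first | (simp only [Ty]; omega) | omega | (split_ifs <;> first | (exfalso; omega) | (simp only [Ty]; omega) | omega | (simp only [true_and, and_true, true_or, or_true, false_and, and_false, false_or, or_false] at * <;> omega))⟩
    by_cases c2 : w = 8 * r + 3 ∧ p = 0
    · exact e2 (4 * r - 4) (4 * r - 3) ⟨by unfold Ed; omega, by simp only [fct, fcc, fcd]; first | (simp only [Ty]; omega) | omega | (split_ifs <;> first | (exfalso; omega) | (simp only [Ty]; omega) | omega | (simp only [true_and, and_true, true_or, or_true, false_and, and_false, false_or, or_false] at * <;> omega))⟩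
    by_cases c3 : w = 8 * r + 3
    · exact e2 (4 * r - 3) (4 * r - 2) ⟨by unfold Ed; omega, by simp only [fct, fcc, fcd]; first | (simp only [Ty]; omega) | omega | (split_ifs <;> first | (exfalso; omega) | (simp only [Ty]; omega) | omega | (simp only [true_and, and_true, true_or, or_true, false_and, and_false, false_or, or_false] at * <;> omega))⟩
    by_cases c4 : p = 0
    · exact e0 1 2 ⟨by unfold Ed; omega, by simp only [fct, fcc, fcd]; first | (simp only [Ty]; omega) | omega | (split_ifs <;> first | (exfalso; omega) | (simp only [Ty]; omega) | omega | (simp only [true_and, and_true, true_or, or_true, false_and, and_false, false_or, or_false] at * <;> omega))⟩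
    exact e0 2 0 ⟨by unfold Ed; omega, by simp only [fct, fcc, fcd]; first | (simp only [Ty]; omega) | omega | (split_ifs <;> first | (exfalso; omega) | (simp only [Ty]; omega) | omega | (simp only [true_and, and_true, true_or, or_true, false_and, and_false, false_or, or_false] at * <;> omega))⟩

lemma fc_sol (r : ℕ) (hr : 1 ≤ r) : Sol (4 * r + 1) :=
  rot_of (4 * r + 1) (4 * r + 1) (by omega) (by omega) (mk (fct r) (fcc r) (fcd r)) (fx (4 * r + 1))
    (bd (fun k hk => by simp only [fct, fcc, fcd]; first | omega | (split_ifs <;> first | omega | (simp only [true_and, and_true, true_or, or_true, false_and, and_false, false_or, or_false] at * <;> omega)))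
      (fun k hk => by simp only [fct, fcc, fcd]; first | omega | (split_ifs <;> first | omega | (simp only [true_and, and_true, true_or, or_true, false_and, and_false, false_or, or_false] at * <;> omega)))
      (fun k hk => by simp only [fct, fcc, fcd]; first | omega | (split_ifs <;> first | omega | (simp only [true_and, and_true, true_or, or_true, false_and, and_false, false_or, or_false] at * <;> omega))))
    (fc_v r hr) (fx_b _) (fx_v _) (fc_t r hr) (fc_i r hr) (fx_e _ _ (by omega))

def fet (r k : ℕ) : ℕ := if k = 0 then 2 * r + 2 else if k = 1 then 6 * r + 5 else 8 * r + 8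
def fec (r k : ℕ) : ℕ := if k ≤ 4 * r then (if k % 2 = 0 then k / 2 else 4 * r + 2 - k / 2) else if k = 4 * r + 1 then 2 * r + 1 else 8 * r + 6
def fed (r k : ℕ) : ℕ := if k ≤ 4 * r then 4 * r + 3 + (if k % 2 = 0 then k / 2 else 4 * r + 2 - k / 2) else if k = 4 * r + 1 then 6 * r + 4 else 8 * r + 7
lemma fe_v (r : ℕ) (hr : 0 ≤ r) : ∀ v, v < 2 * (4 * r + 3) + 3 → HasV (4 * r + 3) (mk (fet r) (fec r) (fed r)) v := by
    intro v hv
    by_cases c0 : v ≤ 2 * r
    · exact v1 (2 * v) ⟨by omega, by simp only [fet, fec, fed] <;> first | omega | (split_ifs <;> first | omega | (simp only [true_and, and_true, true_or, or_true, false_and, and_false, false_or, or_false] at * <;> omega))⟩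
    by_cases c1 : v = 2 * r + 1
    · exact v1 (4 * r + 1) ⟨by omega, by simp only [fet, fec, fed] <;> first | omega | (split_ifs <;> first | omega | (simp only [true_and, and_true, true_or, or_true, false_and, and_false, false_or, or_false] at * <;> omega))⟩
    by_cases c2 : v = 2 * r + 2
    · exact v0 0 ⟨by omega, by simp only [fet, fec, fed] <;> first | omega | (split_ifs <;> first | omega | (simp only [true_and, and_true, true_or, or_true, false_and, and_false, false_or, or_false] at * <;> omega))⟩
    by_cases c3 : v ≤ 4 * r + 2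
    · exact v1 (2 * (4 * r + 2 - v) + 1) ⟨by omega, by simp only [fet, fec, fed] <;> first | omega | (split_ifs <;> first | omega | (simp only [true_and, and_true, true_or, or_true, false_and, and_false, false_or, or_false] at * <;> omega))⟩
    by_cases c4 : v ≤ 6 * r + 3
    · exact v2 (2 * (v - (4 * r + 3))) ⟨by omega, by simp only [fet, fec, fed] <;> first | omega | (split_ifs <;> first | omega | (simp only [true_and, and_true, true_or, or_true, false_and, and_false, false_or, or_false] at * <;> omega))⟩
    by_cases c5 : v = 6 * r + 4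
    · exact v2 (4 * r + 1) ⟨by omega, by simp only [fet, fec, fed] <;> first | omega | (split_ifs <;> first | omega | (simp only [true_and, and_true, true_or, or_true, false_and, and_false, false_or, or_false] at * <;> omega))⟩
    by_cases c6 : v = 6 * r + 5
    · exact v0 1 ⟨by omega, by simp only [fet, fec, fed] <;> first | omega | (split_ifs <;> first | omega | (simp only [true_and, and_true, true_or, or_true, false_and, and_false, false_or, or_false] at * <;> omega))⟩
    by_cases c7 : v ≤ 8 * r + 5
    · exact v2 (2 * (8 * r + 5 - v) + 1) ⟨by omega, by simp only [fet, fec, fed] <;> first | omega | (split_ifs <;> first | omega | (simp only [true_and, and_true, true_or, or_true, false_and, and_false, false_or, or_false] at * <;> omega))⟩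
    by_cases c8 : v = 8 * r + 6
    · exact v1 (4 * r + 2) ⟨by omega, by simp only [fet, fec, fed] <;> first | omega | (split_ifs <;> first | omega | (simp only [true_and, and_true, true_or, or_true, false_and, and_false, false_or, or_false] at * <;> omega))⟩
    by_cases c9 : v = 8 * r + 7
    · exact v2 (4 * r + 2) ⟨by omega, by simp only [fet, fec, fed] <;> first | omega | (split_ifs <;> first | omega | (simp only [true_and, and_true, true_or, or_true, false_and, and_false, false_or, or_false] at * <;> omega))⟩
    exact v0 2 ⟨by omega, by simp only [fet, fec, fed] <;> first | omega | (split_ifs <;> first | omega | (simp only [true_and, and_true, true_or, or_true, false_and, and_false, false_or, or_false] at * <;> omega))⟩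

lemma fe_t (r : ℕ) (hr : 0 ≤ r) : ∀ d p, 1 ≤ d → d ≤ 4 * r + 3 → p < 2 → (4 * r + 3 = 4 * r + 3 → d ≠ 2) →
    HasE (4 * r + 3) (mk (fet r) (fec r) (fed r)) (Ty (4 * r + 3) d p) := by
    intro d p h1 h2 h3 h4
    have H : (d = 4 * r + 3) ∨ (d = 1) ∨ (3 ≤ d ∧ d ≤ 4 * r + 2) := by omega
    rcases H with H | H | H
    · exact e0 0 1 ⟨by unfold Ed; omega, by simp only [fet, fec, fed]; first | (simp only [Ty]; omega) | omega | (split_ifs <;> first | (exfalso; omega) | (simp only [Ty]; omega) | omega | (simp only [true_and, and_true, true_or, or_true, false_and, and_false, false_or, or_false] at * <;> omega))⟩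
    · by_cases c0 : p = 0
      · exact e1 (4 * r) (4 * r + 1) ⟨by unfold Ed; omega, by simp only [fet, fec, fed]; first | (simp only [Ty]; omega) | omega | (split_ifs <;> first | (exfalso; omega) | (simp only [Ty]; omega) | omega | (simp only [true_and, and_true, true_or, or_true, false_and, and_false, false_or, or_false] at * <;> omega))⟩
      exact e2 (4 * r) (4 * r + 1) ⟨by unfold Ed; omega, by simp only [fet, fec, fed]; first | (simp only [Ty]; omega) | omega | (split_ifs <;> first | (exfalso; omega) | (simp only [Ty]; omega) | omega | (simp only [true_and, and_true, true_or, or_true, false_and, and_false, false_or, or_false] at * <;> omega))⟩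
    · by_cases c0 : (4 * r + 3 - d) / 2 % 2 = p
      · exact e1 (4 * r + 2 - d) (4 * r + 3 - d) ⟨by unfold Ed; omega, by simp only [fet, fec, fed]; first | (simp only [Ty]; omega) | omega | (split_ifs <;> first | (exfalso; omega) | (simp only [Ty]; omega) | omega | (simp only [true_and, and_true, true_or, or_true, false_and, and_false, false_or, or_false] at * <;> omega))⟩
      exact e2 (4 * r + 2 - d) (4 * r + 3 - d) ⟨by unfold Ed; omega, by simp only [fet, fec, fed]; first | (simp only [Ty]; omega) | omega | (split_ifs <;> first | (exfalso; omega) | (simp only [Ty]; omega) | omega | (simp only [true_and, and_true, true_or, or_true, false_and, and_false, false_or, or_false] at * <;> omega))⟩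

lemma fe_i (r : ℕ) (hr : 0 ≤ r) : ∀ w p, 2 * (4 * r + 3) ≤ w → w < 2 * (4 * r + 3) + 3 → p < 2 →
    HasE (4 * r + 3) (mk (fet r) (fec r) (fed r)) (fun u v => u < 2 * (4 * r + 3) ∧ u % 2 = p ∧ v = w) := by
    intro w p h1 h2 h3
    by_cases c0 : w = 8 * r + 6 ∧ p = 0
    · exact e1 (4 * r + 2) 0 ⟨by unfold Ed; omega, by simp only [fet, fec, fed]; first | (simp only [Ty]; omega) | omega | (split_ifs <;> first | (exfalso; omega) | (simp only [Ty]; omega) | omega | (simp only [true_and, and_true, true_or, or_true, false_and, and_false, false_or, or_false] at * <;> omega))⟩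
    by_cases c1 : w = 8 * r + 6
    · exact e1 (4 * r + 1) (4 * r + 2) ⟨by unfold Ed; omega, by simp only [fet, fec, fed]; first | (simp only [Ty]; omega) | omega | (split_ifs <;> first | (exfalso; omega) | (simp only [Ty]; omega) | omega | (simp only [true_and, and_true, true_or, or_true, false_and, and_false, false_or, or_false] at * <;> omega))⟩
    by_cases c2 : w = 8 * r + 7 ∧ p = 0
    · exact e2 (4 * r + 1) (4 * r + 2) ⟨by unfold Ed; omega, by simp only [fet, fec, fed]; first | (simp only [Ty]; omega) | omega | (split_ifs <;> first | (exfalso; omega) | (simp only [Ty]; omega) | omega | (simp only [true_and, and_true, true_or, or_true, false_and, and_false, false_or, or_false] at * <;> omega))⟩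
    by_cases c3 : w = 8 * r + 7
    · exact e2 (4 * r + 2) 0 ⟨by unfold Ed; omega, by simp only [fet, fec, fed]; first | (simp only [Ty]; omega) | omega | (split_ifs <;> first | (exfalso; omega) | (simp only [Ty]; omega) | omega | (simp only [true_and, and_true, true_or, or_true, false_and, and_false, false_or, or_false] at * <;> omega))⟩
    by_cases c4 : p = 0
    · exact e0 2 0 ⟨by unfold Ed; omega, by simp only [fet, fec, fed]; first | (simp only [Ty]; omega) | omega | (split_ifs <;> first | (exfalso; omega) | (simp only [Ty]; omega) | omega | (simp only [true_and, and_true, true_or, or_true, false_and, and_false, false_or, or_false] at * <;> omega))⟩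
    exact e0 1 2 ⟨by unfold Ed; omega, by simp only [fet, fec, fed]; first | (simp only [Ty]; omega) | omega | (split_ifs <;> first | (exfalso; omega) | (simp only [Ty]; omega) | omega | (simp only [true_and, and_true, true_or, or_true, false_and, and_false, false_or, or_false] at * <;> omega))⟩

lemma fe_sol (r : ℕ) (hr : 0 ≤ r) : Sol (4 * r + 3) :=
  rot_of (4 * r + 3) (4 * r + 3) (by omega) (by omega) (mk (fet r) (fec r) (fed r)) (fx (4 * r + 3))
    (bd (fun k hk => by simp only [fet, fec, fed]; first | omega | (split_ifs <;> first | omega | (simp only [true_and, and_true, true_or, or_true, false_and, and_false, false_or, or_false] at * <;> omega)))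
      (fun k hk => by simp only [fet, fec, fed]; first | omega | (split_ifs <;> first | omega | (simp only [true_and, and_true, true_or, or_true, false_and, and_false, false_or, or_false] at * <;> omega)))
      (fun k hk => by simp only [fet, fec, fed]; first | omega | (split_ifs <;> first | omega | (simp only [true_and, and_true, true_or, or_true, false_and, and_false, false_or, or_false] at * <;> omega))))
    (fe_v r hr) (fx_b _) (fx_v _) (fe_t r hr) (fe_i r hr) (fx_e _ _ (by omega))

theorem result (s : ℕ) (hs : 3 ≤ s) :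
    ∃ F : Fin (s + 1) → SimpleGraph (Fin (2 * s + 3)),
      (∀ i, Nonempty (F i ≃g Model s)) ∧ ∀ x y, x ≠ y → ∃! i, (F i).Adj x y := by
  show Sol s
  have h : s % 4 = 0 ∨ s % 4 = 1 ∨ s % 4 = 2 ∨ s % 4 = 3 := by omega
  rcases h with h | h | h | h
  · have := fa_sol (s / 4) (by omega)
    rwa [show 4 * (s / 4) = s by omega] at this
  · have := fc_sol (s / 4) (by omega)
    rwa [show 4 * (s / 4) + 1 = s by omega] at this
  · have := fb_sol (s / 4) (by omega)
    rwa [show 4 * (s / 4) + 2 = s by omega] at this
  · have := fe_sol (s / 4) (by omega)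
    rwa [show 4 * (s / 4) + 3 = s by omega] at this

end Pool.Agent.Results.MP_633541_co.Full
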